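import Pool.Agent.C4K.StPr

/-!
# PLK: probability of a link and of the presence of a walk through a node
-/

set_option autoImplicit false

namespace Pool.Agent.C4K

open Finset Cl
open scoped Classical

noncomputable section

namespace PlkAux

theorem qq_prob {W : Type} [Fintype W] {p : ℝ} (h0 : 0 ≤ p) (h1 : p ≤ 1) :
    LLLA.IsProb (α := fun _ : W => Bool) (qq p) := by
  refine ⟨?_, ?_⟩
  · intro w a
    unfold qq
    split_ifs <;> linarith
  · intro w
    unfold qq
    rw [Fintype.sum_bool]
    simp

variable {V : Type} [Fintype V] {C : Cl V} {T : ℕ}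

theorem E_mono {p : ℝ} (h0 : 0 ≤ p) (h1 : p ≤ 1) {f g : (C.Wk T → Bool) → ℝ}
    (h : ∀ om, f om ≤ g om) : C.E T p f ≤ C.E T p g :=
  LLLA.Ex_mono (qq_prob h0 h1) h

theorem E_card {p : ℝ} (h0 : 0 ≤ p) (h1 : p ≤ 1) (S : Finset (C.Wk T)) :
    C.E T p (fun om => ∑ w ∈ S, if om w = true then (1 : ℝ) else 0) = p * S.card := by
  unfold Cl.E
  rw [LLLA.Ex_sum]
  rw [Finset.sum_congr rfl (fun w _ =>
    LLLA.Ex_coord (α := fun _ : C.Wk T => Bool) (qq_prob h0 h1) w true)]
  have h2 : ∀ w ∈ S, qq (W := C.Wk T) p w true = p := by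
    intro w _
    unfold qq
    rw [if_pos rfl]
  rw [Finset.sum_congr rfl h2, Finset.sum_const, nsmul_eq_mul]
  ring

theorem mult_eq (om : C.Wk T → Bool) (u : V) : (mult om u : ℝ) =
    ∑ w ∈ univ.filter (fun w : C.Wk T => w.has u), if om w = true then (1 : ℝ) else 0 := by
  unfold mult
  rw [Finset.sum_ite, Finset.sum_const_zero, add_zero, Finset.sum_const, nsmul_eq_mul, mul_one,
    Finset.filter_filter]
  congr 2
  ext w
  simp only [mem_filter, mem_univ, true_and]
  tauto

theorem E_mult {p : ℝ} (h0 : 0 ≤ p) (h1 : p ≤ 1) (u : V) :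
    C.E T p (fun om => (mult om u : ℝ)) =
      p * ((univ.filter fun w : C.Wk T => w.has u).card : ℝ) := by
  rw [← E_card h0 h1]
  congr 1
  funext om
  exact mult_eq om u

theorem Pr_le_E {p : ℝ} (h0 : 0 ≤ p) (h1 : p ≤ 1) (X : Set (C.Wk T → Bool))
    (g : (C.Wk T → Bool) → ℝ) (hg : ∀ om, 0 ≤ g om) (h : ∀ om ∈ X, 1 ≤ g om) :
    C.Pr T p X ≤ C.E T p g := by
  unfold Cl.Pr
  rw [LLLA.Pr_eq_Ex]
  apply LLLA.Ex_mono (qq_prob h0 h1)
  intro om
  by_cases hx : om ∈ X
  · rw [Set.indicator_of_mem hx]
    exact h om hx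
  · rw [Set.indicator_of_notMem hx]
    exact hg om

/-- a set of walks, one of which is present -/
theorem Pr_ex_le {p : ℝ} (h0 : 0 ≤ p) (h1 : p ≤ 1) (X : Set (C.Wk T → Bool))
    (S : Finset (C.Wk T)) (h : ∀ om ∈ X, ∃ w ∈ S, om w = true) :
    C.Pr T p X ≤ p * S.card := by
  rw [← E_card h0 h1]
  apply Pr_le_E h0 h1
  · intro om
    exact Finset.sum_nonneg fun w _ => by split_ifs <;> norm_num
  · intro om hom
    obtain ⟨w, hw, ho⟩ := h om hom
    have := Finset.single_le_sum (f := fun w => if om w = true then (1 : ℝ) else 0)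
      (fun w _ => by split_ifs <;> norm_num) hw
    simpa [ho] using this

theorem sum_Pr_le {p : ℝ} (h0 : 0 ≤ p) (h1 : p ≤ 1) (X : V → Set (C.Wk T → Bool))
    (g : (C.Wk T → Bool) → ℝ)
    (h : ∀ om, ((univ.filter fun y => om ∈ X y).card : ℝ) ≤ g om) :
    (∑ y, C.Pr T p (X y)) ≤ C.E T p g := by
  unfold Cl.Pr Cl.E
  simp only [LLLA.Pr_eq_Ex]
  rw [← LLLA.Ex_sum]
  apply LLLA.Ex_mono (qq_prob h0 h1)
  intro om
  refine le_trans (le_of_eq ?_) (h om)
  rw [Finset.card_filter]
  push_cast
  apply Finset.sum_congr rfl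
  intro y _
  by_cases hx : om ∈ X y
  · rw [Set.indicator_of_mem hx, if_pos hx]
  · rw [Set.indicator_of_notMem hx, if_neg hx]

/-- the walk through a node of multiplicity one is unique -/
theorem uniq {om : C.Wk T → Bool} {u : V} (hm : mult om u = 1) {w w' : C.Wk T}
    (hw : om w = true) (hu : w.has u) (hw' : om w' = true) (hu' : w'.has u) : w = w' := by
  unfold mult at hm
  exact Finset.card_le_one.1 hm.le w (by simp [hw, hu]) w' (by simp [hw', hu'])

omit [Fintype V] in
theorem n_inj (w : C.Wk T) {i j : ℕ} (hi : i ≤ T) (hj : j ≤ T) (h : w.n i = w.n j) : i = j :=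
  w.2.inj i j hi hj h

theorem np_one_le (C : Cl V) (a b : V) : C.np 1 a b ≤ 1 := by
  unfold Cl.np
  unfold Cl.np
  rw [Finset.sum_ite, Finset.sum_const_zero, add_zero, Finset.sum_const, smul_eq_mul, mul_one]
  apply Finset.card_le_one.2
  intro x hx y hy
  rw [mem_filter] at hx hy
  rw [hx.2, hy.2]

end PlkAux

open PlkAux

theorem plk (h : WPCStmt) : PLKStmt := by
  intro V _ C d T p z r hP
  obtain ⟨w1, w2, w3⟩ := h V C d T p z r hP
  have h0 : 0 ≤ p := hP.p0.le
  have h1 : p ≤ 1 := by linarith [hP.ph]
  have hd : 0 < d := by linarith [hP.ok.one_le]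
  have hz : 0 ≤ z := hP.z0.le
  have hr : 0 ≤ r := by
    rw [← hP.zr]
    positivity
  have hE : ∀ u, C.E T p (fun om => (mult om u : ℝ)) ≤ 2 * r := by
    intro u
    rw [E_mult h0 h1]
    exact w2 u
  refine ⟨?_, ?_, ?_, ?_, hE⟩
  · -- one link
    intro x y
    by_cases hy : ∃ x', C.f x' = some y
    · obtain ⟨x', hx'⟩ := hy
      have hsub : C.Pr T p {om | lnk om x y} ≤ p * ((univ.filter fun w : C.Wk T =>
          ∃ i ∈ range T, w.n i = x ∧ w.n (i + 1) = x').card : ℝ) := by
        apply Pr_ex_le h0 h1
        rintro om ⟨w, how, i, hi, hx, hhd, -, -⟩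
        refine ⟨w, ?_, how⟩
        rw [mem_filter]
        exact ⟨mem_univ _, i, mem_range.2 hi, hx, hP.ok.inj _ _ _ hhd hx'⟩
      refine hsub.trans ?_
      have hcard : ((univ.filter fun w : C.Wk T =>
          ∃ i ∈ range T, w.n i = x ∧ w.n (i + 1) = x').card : ℝ) ≤
          ∑ i ∈ range T, ((univ.filter fun w : C.Wk T =>
            w.n i = x ∧ w.n (i + 1) = x').card : ℝ) := by
        have : (univ.filter fun w : C.Wk T => ∃ i ∈ range T, w.n i = x ∧ w.n (i + 1) = x') ⊆
            (range T).biUnion fun i => univ.filter fun w : C.Wk T =>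
              w.n i = x ∧ w.n (i + 1) = x' := by
          intro w hw
          rw [mem_filter] at hw
          obtain ⟨-, i, hi, hw⟩ := hw
          rw [mem_biUnion]
          exact ⟨i, hi, by rw [mem_filter]; exact ⟨mem_univ _, hw⟩⟩
        have h2 := (Finset.card_le_card this).trans Finset.card_biUnion_le
        exact_mod_cast h2
      calc p * ((univ.filter fun w : C.Wk T =>
            ∃ i ∈ range T, w.n i = x ∧ w.n (i + 1) = x').card : ℝ) ≤
          p * ∑ i ∈ range T, ((univ.filter fun w : C.Wk T =>
            w.n i = x ∧ w.n (i + 1) = x').card : ℝ) := mul_le_mul_of_nonneg_left hcard h0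
        _ = ∑ i ∈ range T, p * ((univ.filter fun w : C.Wk T =>
            w.n i = x ∧ w.n (i + 1) = x').card : ℝ) := Finset.mul_sum _ _ _
        _ ≤ ∑ _i ∈ range T, 2 * z / d := by
            apply Finset.sum_le_sum
            intro i hi
            have h3 := w3 i 1 x x' (by have := mem_range.1 hi; omega)
            refine h3.trans ?_
            rw [pow_one]
            apply div_le_div_of_nonneg_right _ hd.le
            have h4 : (C.np 1 x x' : ℝ) ≤ 1 := by exact_mod_cast np_one_le C x x'
            nlinarith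
        _ = T * (2 * z / d) := by rw [Finset.sum_const, card_range, nsmul_eq_mul]
        _ ≤ 2 * r / d := by
            rw [← mul_div_assoc]
            apply div_le_div_of_nonneg_right _ hd.le
            rw [← hP.zr]
            nlinarith
    · have : C.Pr T p {om | lnk om x y} ≤ p * ((∅ : Finset (C.Wk T)).card : ℝ) := by
        apply Pr_ex_le h0 h1
        rintro om ⟨w, how, i, hi, hx, hhd, -, -⟩
        exact absurd ⟨_, hhd⟩ hy
      refine this.trans ?_
      rw [Finset.card_empty, Nat.cast_zero, mul_zero]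
      positivity
  · -- links from x
    intro x
    refine le_trans (sum_Pr_le h0 h1 (fun y => {om | lnk om x y})
      (fun om => (mult om x : ℝ)) ?_) (hE x)
    intro om
    have hc : (univ.filter fun y => om ∈ {om : C.Wk T → Bool | lnk om x y}).card ≤ mult om x := by
      by_cases hne : ∃ y, lnk om x y
      · obtain ⟨y, w, how, i, hi, hx, hhd, hm, hm'⟩ := hne
        rw [hm]
        apply Finset.card_le_one.2
        have key : ∀ y', lnk om x y' → y' = y := by
          rintro y' ⟨w', how', i', hi', hx', hhd', -, -⟩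
          have e : w' = w := uniq hm how' ⟨i', by omega, hx'⟩ how ⟨i, by omega, hx⟩
          subst e
          have e2 : i' = i := n_inj w' (by omega) (by omega) (hx'.trans hx.symm)
          subst e2
          have : some y' = some y := by
            rw [← hhd, ← hhd']
          exact Option.some.inj this
        intro a ha b hb
        rw [mem_filter] at ha hb
        rw [key a ha.2, key b hb.2]
      · have : (univ.filter fun y => om ∈ {om : C.Wk T → Bool | lnk om x y}) = ∅ := by
          apply Finset.filter_eq_empty_iff.2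
          intro y _ hy
          exact hne ⟨y, hy⟩
        rw [this, Finset.card_empty]
        exact Nat.zero_le _
    exact_mod_cast hc
  · -- links to y
    intro y
    by_cases hy : ∃ x', C.f x' = some y
    · obtain ⟨x', hx'⟩ := hy
      refine le_trans (sum_Pr_le h0 h1 (fun x => {om | lnk om x y})
        (fun om => (mult om x' : ℝ)) ?_) (hE x')
      intro om
      have hc : (univ.filter fun x => om ∈ {om : C.Wk T → Bool | lnk om x y}).card ≤
          mult om x' := by
        by_cases hne : ∃ x, lnk om x y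
        · obtain ⟨x, w, how, i, hi, hx, hhd, hm, hm'⟩ := hne
          have e1 : w.n (i + 1) = x' := hP.ok.inj _ _ _ hhd hx'
          rw [e1] at hm'
          rw [hm']
          apply Finset.card_le_one.2
          have key : ∀ x1, lnk om x1 y → x1 = x := by
            rintro x1 ⟨w', how', i', hi', hx1, hhd', -, -⟩
            have e1' : w'.n (i' + 1) = x' := hP.ok.inj _ _ _ hhd' hx'
            have e : w' = w := uniq hm' how' ⟨i' + 1, by omega, e1'⟩ how ⟨i + 1, by omega, e1⟩
            subst e
            have e2 : i' + 1 = i + 1 := n_inj w' (by omega) (by omega) (e1'.trans e1.symm)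
            have e3 : i' = i := by omega
            subst e3
            exact hx1.symm.trans hx
          intro a ha b hb
          rw [mem_filter] at ha hb
          rw [key a ha.2, key b hb.2]
        · have : (univ.filter fun x => om ∈ {om : C.Wk T → Bool | lnk om x y}) = ∅ := by
            apply Finset.filter_eq_empty_iff.2
            intro x _ hx
            exact hne ⟨x, hx⟩
          rw [this, Finset.card_empty]
          exact Nat.zero_le _
      exact_mod_cast hc
    · have : ∀ x, C.Pr T p {om | lnk om x y} ≤ 0 := by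
        intro x
        have : C.Pr T p {om | lnk om x y} ≤ p * ((∅ : Finset (C.Wk T)).card : ℝ) := by
          apply Pr_ex_le h0 h1
          rintro om ⟨w, how, i, hi, hx, hhd, -, -⟩
          exact absurd ⟨_, hhd⟩ hy
        simpa using this
      refine (Finset.sum_nonpos fun x _ => this x).trans ?_
      positivity
  · -- presence
    intro u
    refine le_trans (Pr_le_E h0 h1 _ (fun om => (mult om u : ℝ)) ?_ ?_) (hE u)
    · intro om
      positivity
    · intro om hom
      have : 1 ≤ mult om u := Nat.one_le_iff_ne_zero.2 hom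
      exact_mod_cast this

end

end Pool.Agent.C4K
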